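import Pool.Agent.J6H66.PE.Stm3
import Pool.Agent.J6H98.PE.Split

/-!
# PE-SPLIT2: actions through the projective image of a plane representation
(project PE of helper66; the structure of the proof follows PE-SPLIT of helper98)
-/

set_option autoImplicit false

open Polynomial

namespace Pool.Agent.J6H78.PE2

open Pool.Agent.J6H83.Mo
open Pool.Agent.H391R2.T4 (RegSol)
open Pool.Agent.J6H66.PE (S_PD S_PS2)
open Pool.Agent.J6H98.PES (desc_rep)

section
variable {F E : Type} [Field F] [Group E]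

/-- the elements which are mapped to scalar matrices -/
def scal (R : E →* GL (Fin 2) F) : Subgroup E := (Subgroup.center (GL (Fin 2) F)).comap R

instance (R : E →* GL (Fin 2) F) : (scal R).Normal :=
  inferInstanceAs ((Subgroup.center (GL (Fin 2) F)).comap R).Normal

theorem mem_scal (R : E →* GL (Fin 2) F) (x : E) :
    x ∈ scal R ↔ R x 0 1 = 0 ∧ R x 1 0 = 0 ∧ R x 0 0 = R x 1 1 := by
  rw [scal, Subgroup.mem_comap, Matrix.GeneralLinearGroup.mem_center_iff_val_mem_range_scalar]
  constructor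
  · rintro ⟨a, ha⟩
    have h : ∀ i j, R x i j = (Matrix.scalar (Fin 2) a) i j := fun i j => by rw [ha]
    refine ⟨?_, ?_, ?_⟩
    · rw [h]; simp [Matrix.scalar_apply]
    · rw [h]; simp [Matrix.scalar_apply]
    · rw [h, h]; simp [Matrix.scalar_apply]
  · rintro ⟨h1, h2, h3⟩
    refine ⟨R x 0 0, ?_⟩
    ext i j
    fin_cases i <;> fin_cases j
    · simp [Matrix.scalar_apply]
    · simpa [Matrix.scalar_apply] using h1.symm
    · simpa [Matrix.scalar_apply] using h2.symm
    · simpa [Matrix.scalar_apply] using h3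

/-- two elements of a coset have proportional matrices -/
theorem ratio (R : E →* GL (Fin 2) F) (x y : E) (h : x⁻¹ * y ∈ scal R) :
    ∃ l : F, l ≠ 0 ∧ ∀ i j, R y⁻¹ i j = l * R x⁻¹ i j := by
  have hz : (x⁻¹ * y)⁻¹ ∈ scal R := (scal R).inv_mem h
  have hy : y⁻¹ = (x⁻¹ * y)⁻¹ * x⁻¹ := by group
  generalize (x⁻¹ * y)⁻¹ = z at hz hy
  obtain ⟨h1, h2, h3⟩ := (mem_scal R z).1 hz
  have hdet : (R z 0 0) * (R z 1 1) - (R z 0 1) * (R z 1 0) ≠ 0 := by
    have h := (R z).det.ne_zero
    rw [Matrix.GeneralLinearGroup.val_det_apply, Matrix.det_fin_two] at h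
    exact h
  rw [h1, zero_mul, sub_zero] at hdet
  have hm : ∀ i j, R y⁻¹ i j = R z i 0 * R x⁻¹ 0 j + R z i 1 * R x⁻¹ 1 j := by
    intro i j
    have h4 : ((R y⁻¹ : GL (Fin 2) F) : Matrix (Fin 2) (Fin 2) F) i j =
        (((R z * R x⁻¹ : GL (Fin 2) F)) : Matrix (Fin 2) (Fin 2) F) i j := by
      rw [← map_mul, ← hy]
    rw [Units.val_mul, Matrix.mul_apply, Fin.sum_univ_two] at h4
    exact h4
  refine ⟨R z 0 0, left_ne_zero_of_mul hdet, fun i j => ?_⟩
  rw [hm]
  fin_cases i
  · change R z 0 0 * R x⁻¹ 0 j + R z 0 1 * R x⁻¹ 1 j = _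
    rw [h1, zero_mul, add_zero]
    rfl
  · change R z 1 0 * R x⁻¹ 0 j + R z 1 1 * R x⁻¹ 1 j = _
    rw [h2, zero_mul, zero_add, h3]
    rfl

/-- the Moebius data of the projective image of a plane representation -/
noncomputable def mobZ (R : E →* GL (Fin 2) F) (Z : Subgroup E) [Z.Normal] (hZ : Z = scal R) :
    Mob F (E ⧸ Z) where
  a := fun γ => R (γ.out)⁻¹ 0 0
  b := fun γ => R (γ.out)⁻¹ 0 1
  c := fun γ => R (γ.out)⁻¹ 1 0
  d := fun γ => R (γ.out)⁻¹ 1 1
  det := fun γ => by
    have h := (R (γ.out)⁻¹).det.ne_zero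
    rw [Matrix.GeneralLinearGroup.val_det_apply, Matrix.det_fin_two] at h
    exact h
  mul := by
    intro g h
    have h0 : ((g * h).out)⁻¹ * (g.out * h.out) ∈ scal R := by
      rw [← hZ, ← QuotientGroup.eq_one_iff, QuotientGroup.mk_mul, QuotientGroup.mk_inv,
        QuotientGroup.mk_mul, QuotientGroup.out_eq', QuotientGroup.out_eq', QuotientGroup.out_eq',
        inv_mul_cancel]
    obtain ⟨l, hl, h1⟩ := ratio R _ _ h0
    have h2 : ∀ i j, R (g.out * h.out)⁻¹ i j =
        R (h.out)⁻¹ i 0 * R (g.out)⁻¹ 0 j + R (h.out)⁻¹ i 1 * R (g.out)⁻¹ 1 j := by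
      intro i j
      have h3 : ((R (g.out * h.out)⁻¹ : GL (Fin 2) F) : Matrix (Fin 2) (Fin 2) F) i j =
          (((R (h.out)⁻¹ * R (g.out)⁻¹ : GL (Fin 2) F)) : Matrix (Fin 2) (Fin 2) F) i j := by
        rw [← map_mul, ← mul_inv_rev]
      rw [Units.val_mul, Matrix.mul_apply, Fin.sum_univ_two] at h3
      exact h3
    refine ⟨l, hl, ?_, ?_, ?_, ?_⟩
    all_goals rw [← h1, h2]
  inj := fun γ h1 h2 h3 => by
    have h4 : (γ.out)⁻¹ ∈ Z := hZ.ge ((mem_scal R _).2 ⟨h1, h2, h3⟩)
    have h5 : γ.out ∈ Z := by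
      have := Z.inv_mem h4
      rwa [inv_inv] at this
    rw [← QuotientGroup.eq_one_iff, QuotientGroup.out_eq'] at h5
    exact h5

end

theorem main_PS2 (hPD : S_PD) : S_PS2 := by
  classical
  intro k Λ _ _ _ _ _ _ D _ _ R A _ _ θ hθ
  have : CharZero Λ := charZero_of_injective_algebraMap (algebraMap k Λ).injective
  let RE : (E : Subgroup D) → (E →* GL (Fin 2) Λ) := fun E => R.comp E.subtype
  have hker : ∀ E : Subgroup D, ∀ z ∈ scal (RE E), (θ.comp E.subtype) z = 1 := by
    intro E z hz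
    obtain ⟨h1, h2, h3⟩ := (mem_scal _ z).1 hz
    exact hθ z h1 h2 h3
  let φ : (E : Subgroup D) → ((E ⧸ scal (RE E)) →* MulAut A) := fun E =>
    QuotientGroup.lift (scal (RE E)) (θ.comp E.subtype) (hker E)
  -- one subgroup
  have hE : ∀ E : Subgroup D, ∃ kE : IntermediateField k Λ, FiniteDimensional k kE ∧
      ∀ k' : IntermediateField k Λ, kE ≤ k' →
        ∃ (a' b' c' d' : A ⋊[φ E] (E ⧸ scal (RE E)) → k') (P' Q' : k'[X]),
          (∀ g, (a' g : Λ) = RE E (g.right.out)⁻¹ 0 0) ∧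
          (∀ g, (b' g : Λ) = RE E (g.right.out)⁻¹ 0 1) ∧
          (∀ g, (c' g : Λ) = RE E (g.right.out)⁻¹ 1 0) ∧
          (∀ g, (d' g : Λ) = RE E (g.right.out)⁻¹ 1 1) ∧
          HasMob k' (A ⋊[φ E] (E ⧸ scal (RE E))) a' b' c' d' P' Q' := by
    intro E
    obtain ⟨P, Q, hM⟩ := mob_ample (H33.ample_of_isAlgClosed Λ)
      (mobZ (RE E) (scal (RE E)) rfl) A (φ E)
    have : Finite (A ⋊[φ E] (E ⧸ scal (RE E))) :=
      Finite.of_equiv _ SemidirectProduct.equivProd.symm
    obtain ⟨kE, hfin, h⟩ := hPD k Λ (A ⋊[φ E] (E ⧸ scal (RE E))) _ _ _ _ P Q hM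
    refine ⟨kE, hfin, fun k' hk' => ?_⟩
    obtain ⟨a', b', c', d', P', Q', h1, h2, h3, h4, h5⟩ := h k' hk'
    exact ⟨a', b', c', d', P', Q', h1, h2, h3, h4, h5⟩
  choose kE hfin hkE using hE
  have : Finite (Subgroup D) := inferInstance
  -- the entries of the matrices
  let S : Set Λ := Set.range fun p : D × Fin 2 × Fin 2 => R p.1 p.2.1 p.2.2
  have : Finite S := Set.finite_range _
  have hS : FiniteDimensional k (IntermediateField.adjoin k S) :=
    IntermediateField.finiteDimensional_adjoin fun x _ => Algebra.IsIntegral.isIntegral x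
  have hsup : FiniteDimensional k (⨆ E : Subgroup D, kE E : IntermediateField k Λ) :=
    IntermediateField.finiteDimensional_iSup_of_finite
  refine ⟨(⨆ E : Subgroup D, kE E) ⊔ IntermediateField.adjoin k S,
    IntermediateField.finiteDimensional_sup _ _, ?_⟩
  have hle0 : ∀ E, kE E ≤ (⨆ E : Subgroup D, kE E) ⊔ IntermediateField.adjoin k S := fun E =>
    (le_iSup kE E).trans le_sup_left
  have hent0 : ∀ x i j, R x i j ∈ (⨆ E : Subgroup D, kE E) ⊔ IntermediateField.adjoin k S :=
    fun x i j => (le_sup_right : IntermediateField.adjoin k S ≤ _)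
      (IntermediateField.subset_adjoin k S ⟨(x, i, j), rfl⟩)
  generalize ((⨆ E : Subgroup D, kE E) ⊔ IntermediateField.adjoin k S) = k₀ at hle0 hent0
  intro K L _ _ _ _ _ _ β
  obtain ⟨a', b', c', d', P', Q', ha, hb, hc, hd, hM⟩ := hkE β.range k₀ (hle0 _)
  have : CharZero k₀ := charZero_of_injective_algebraMap (algebraMap k k₀).injective
  let m : β.range → Matrix (Fin 2) (Fin 2) k₀ := fun x i j => ⟨R (x : D) i j, hent0 _ i j⟩
  obtain ⟨R', hR'm⟩ := desc_rep (RE β.range) m (fun x i j => rfl)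
  have hR'Λ : ∀ x i j, algebraMap k₀ Λ (R' x i j) = RE β.range x i j := by
    intro x i j
    rw [hR'm]
    rfl
  have hinj : Function.Injective (algebraMap k₀ Λ) := (algebraMap k₀ Λ).injective
  have hZ : scal (RE β.range) = scal R' := by
    ext x
    rw [mem_scal, mem_scal, ← hR'Λ, ← hR'Λ, ← hR'Λ, ← hR'Λ, ← map_zero (algebraMap k₀ Λ),
      hinj.eq_iff, hinj.eq_iff, hinj.eq_iff]
  let M : Mob k₀ (β.range ⧸ scal (RE β.range)) := mobZ R' (scal (RE β.range)) hZ
  let Gh := A ⋊[φ β.range] (β.range ⧸ scal (RE β.range))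
  have hM' : HasMob k₀ Gh (fun g => M.a (SemidirectProduct.rightHom g))
      (fun g => M.b (SemidirectProduct.rightHom g)) (fun g => M.c (SemidirectProduct.rightHom g))
      (fun g => M.d (SemidirectProduct.rightHom g)) P' Q' := by
    have e1 : a' = fun g => M.a (SemidirectProduct.rightHom g) := by
      funext g
      apply hinj
      exact (ha g).trans (hR'Λ (g.right.out)⁻¹ 0 0).symm
    have e2 : b' = fun g => M.b (SemidirectProduct.rightHom g) := by
      funext g
      apply hinj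
      exact (hb g).trans (hR'Λ (g.right.out)⁻¹ 0 1).symm
    have e3 : c' = fun g => M.c (SemidirectProduct.rightHom g) := by
      funext g
      apply hinj
      exact (hc g).trans (hR'Λ (g.right.out)⁻¹ 1 0).symm
    have e4 : d' = fun g => M.d (SemidirectProduct.rightHom g) := by
      funext g
      apply hinj
      exact (hd g).trans (hR'Λ (g.right.out)⁻¹ 1 1).symm
    rw [e1, e2, e3, e4] at hM
    exact hM
  let G := A ⋊[θ.comp β] (L ≃ₐ[K] L)
  have : Finite G := Finite.of_equiv _ SemidirectProduct.equivProd.symm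
  let ρ : (L ≃ₐ[K] L) →* (β.range ⧸ scal (RE β.range)) :=
    (QuotientGroup.mk' (scal (RE β.range))).comp β.rangeRestrict
  let π : G →* Gh := SemidirectProduct.map (MonoidHom.id A) ρ (fun g => rfl)
  obtain ⟨u, hu⟩ := exists_u (k := k₀) (K := K) (L := L) (R'.comp β.rangeRestrict)
  refine mob_twist k₀ K L G Gh (β.range ⧸ scal (RE β.range)) SemidirectProduct.rightHom
    SemidirectProduct.rightHom_surjective π ?_ ?_ M SemidirectProduct.rightHom ρ (fun g => rfl) ?_
    u ?_ P' Q' hM'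
  · intro y
    obtain ⟨e, he⟩ := QuotientGroup.mk'_surjective (scal (RE β.range)) y.right
    obtain ⟨σ, hσ⟩ := β.rangeRestrict_surjective e
    refine ⟨⟨y.left, σ⟩, SemidirectProduct.ext rfl ?_⟩
    change (QuotientGroup.mk' (scal (RE β.range))) (β.rangeRestrict σ) = y.right
    rw [hσ, he]
  · intro g h1 h2
    have h3 : (π g).left = 1 := by rw [h1]; rfl
    exact SemidirectProduct.ext h3 h2
  · intro g
    constructor
    · intro h
      have h0 : β.rangeRestrict g.right ∈ scal (RE β.range) := by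
        rw [← QuotientGroup.eq_one_iff]
        exact h
      have h1 : θ (β g.right) = 1 := hker β.range _ h0
      refine ⟨SemidirectProduct.inr g.right, SemidirectProduct.inl g.left, ?_, rfl, ?_⟩
      · exact SemidirectProduct.ext rfl h
      · apply SemidirectProduct.ext
        · change g.left = 1 * (θ (β g.right)) g.left
          rw [h1, one_mul]
          rfl
        · change g.right = g.right * 1
          rw [mul_one]
    · rintro ⟨c, h, hc, hh, rfl⟩
      rw [map_mul, hc, one_mul]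
      have hh' : h.right = 1 := hh
      change ρ h.right = 1
      rw [hh', map_one]
  · intro σ
    have h1 := hu σ
    have h2 : ((ρ σ).out)⁻¹ * β.rangeRestrict σ ∈ scal R' := by
      rw [← hZ, ← QuotientGroup.eq_one_iff, QuotientGroup.mk_mul, QuotientGroup.mk_inv,
        QuotientGroup.out_eq']
      exact inv_mul_cancel _
    obtain ⟨l, hl, h3⟩ := ratio R' _ _ h2
    have h4 : ∀ i j, (R'.comp β.rangeRestrict) σ⁻¹ i j = l * R' ((ρ σ).out)⁻¹ i j := by
      intro i j
      rw [MonoidHom.comp_apply, map_inv β.rangeRestrict]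
      exact h3 i j
    rw [h4, h4, h4, h4] at h1
    simp only [map_mul] at h1
    have hl' : algebraMap K L (algebraMap k₀ K l) ≠ 0 := by
      rw [Ne, map_eq_zero, map_eq_zero]
      exact hl
    apply mul_left_cancel₀ hl'
    change algebraMap K L (algebraMap k₀ K l) *
      ((algebraMap K L (algebraMap k₀ K (R' ((ρ σ).out)⁻¹ 1 0)) * u +
        algebraMap K L (algebraMap k₀ K (R' ((ρ σ).out)⁻¹ 1 1))) * σ u) =
      algebraMap K L (algebraMap k₀ K l) *
      (algebraMap K L (algebraMap k₀ K (R' ((ρ σ).out)⁻¹ 0 0)) * u +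
        algebraMap K L (algebraMap k₀ K (R' ((ρ σ).out)⁻¹ 0 1)))
    linear_combination h1

end Pool.Agent.J6H78.PE2
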